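import Pool.Agent.H46.CH.DU
import Pool.Agent.H8.CH.RgT

/-!
# Row TRG: the relations of the derivation trees are recognised
-/

set_option autoImplicit false

namespace Pool.Agent.H48.CHD

open Classical Pool.Agent.H8.VR Pool.Agent.H69.VR Pool.Agent.H46.CH
open Pool.Agent.H8.JS (NTM Cfg Mv lang num)
open Pool.Agent.H8.CH (rg_congr fs_map fs_true rg_and rg_const rg_sum rg_cp rg_imp)

/-- the index type of the vectors -/
abbrev TI (Q L T C : Type) : Type := VI Q L T C ⊕ (Ix Q L T C × T) ⊕ VI Q L T C ⊕ Unit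

theorem fs_unit (v : Unit → ℕ) : fs (fun _ => True) v = v () := by
  rw [fs_true]
  simp

theorem fs_elim {κ κ' : Type} [Fintype κ] [Fintype κ'] (P : κ → Prop) (P' : κ' → Prop)
    (g : κ ⊕ κ' → ℕ) : fs (Sum.elim P P') g =
      fs P (fun k => g (.inl k)) + fs P' (fun k => g (.inr k)) := by
  unfold fs
  rw [Finset.sum_filter, Finset.sum_filter, Finset.sum_filter, Fintype.sum_sum_type]
  rfl

/-- equality of coordinates up to a constant -/
theorem rg_eqc {ι : Type} [Fintype ι] (hRH : T_RH) (i j : ι) (b : ℕ) :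
    Rg (fun v : ι → ℕ => v i = v j + b) := by
  refine rg_congr (fun v => ?_) (rg_sum hRH (κ := Unit) i (fun _ => j)
    (fun _ _ _ => rfl) (fun _ => True) b)
  rw [fs_unit]

theorem rg_eq {ι : Type} [Fintype ι] (hRH : T_RH) (i j : ι) :
    Rg (fun v : ι → ℕ => v i = v j) :=
  rg_congr (fun v => by rw [add_zero]) (rg_eqc hRH i j 0)

theorem pf_TRG (hRG : T_RG) (hRH : T_RH) : Pool.Agent.H46.CH.T_TRG := by
  intro N Q L T O C _ _ _ _ S K Ok e
  rcases e with _ | o | ⟨o, τ⟩ | o | o | o | s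
  · -- root
    refine rg_and hRG ?_ ?_
    · refine rg_congr (fun v => ?_) (rg_sum (ι := TI Q L T C) hRH (κ := Ix Q L T C)
        (.inr (.inr (.inr ()))) (fun σ => .inr (.inr (.inl (.inl σ)))) ?_ (fun _ => True) 0)
      · rw [fs_true, add_zero]
        exact eq_comm
      · intro σ σ' h
        simpa using h
    · exact hRH.1 _ (Ix Q L T C)
        (fun σ (v : TI Q L T C → ℕ) => v (.inr (.inr (.inl (.inl σ)))) ≠ 0 → Ok σ.2)
        fun σ => rg_imp hRG hRH _ _
  · -- join
    refine rg_and hRG ?_ ?_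
    · refine hRH.1 _ (Ix Q L T C) (fun σ (v : TI Q L T C → ℕ) => v (.inl (.inl σ)) =
        fs (fun ρ : Ix Q L T C => (S.f o ρ.1, ρ.2) = σ)
          (fun σ => v (.inr (.inr (.inl (.inl σ))))) +
        fs (fun ρ : Ix Q L T C => (S.g o ρ.1, ρ.2) = σ)
          (fun σ => v (.inr (.inr (.inl (.inr (.inr σ))))))) fun σ => ?_
      refine rg_congr (fun v => ?_) (rg_sum (ι := TI Q L T C) hRH
        (κ := Ix Q L T C ⊕ Ix Q L T C) (.inl (.inl σ))
        (Sum.elim (fun σ => .inr (.inr (.inl (.inl σ))))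
          (fun σ => .inr (.inr (.inl (.inr (.inr σ)))))) ?_
        (Sum.elim (fun ρ : Ix Q L T C => (S.f o ρ.1, ρ.2) = σ)
          (fun ρ : Ix Q L T C => (S.g o ρ.1, ρ.2) = σ)) 0)
      · rw [fs_elim, add_zero]
        rfl
      · rintro (x | x) (y | y) h
        · simpa using h
        · simp at h
        · simp at h
        · simpa using h
    · exact hRH.1 _ (Ix Q L T C)
        (fun σ (v : TI Q L T C → ℕ) => v (.inr (.inr (.inl (.inr (.inl σ))))) = 0)
        fun σ => hRH.2.2.2.2 _ _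
  · -- step
    refine rg_and hRG ?_ (rg_and hRG ?_ (rg_and hRG ?_ (rg_and hRG ?_ ?_)))
    · refine hRH.1 _ (Ix Q L T C) (fun σ (v : TI Q L T C → ℕ) =>
        ∑ θ, v (.inr (.inl (σ, θ))) = v (.inr (.inr (.inl (.inl σ))))) fun σ => ?_
      refine rg_congr (fun v => ?_) (rg_sum (ι := TI Q L T C) hRH (κ := T)
        (.inr (.inr (.inl (.inl σ)))) (fun θ => .inr (.inl (σ, θ))) ?_ (fun _ => True) 0)
      · rw [fs_true, add_zero]
        exact eq_comm
      · intro θ θ' h
        simpa using h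
    · exact hRH.1 _ (Ix Q L T C × T) (fun p (v : TI Q L T C → ℕ) =>
        v (.inr (.inl p)) ≠ 0 → S.al o p.1.1 τ.1 p.2) fun p => rg_imp hRG hRH _ _
    · refine hRH.1 _ (Ix Q L T C) (fun σ (v : TI Q L T C → ℕ) =>
        v (.inl (.inr (.inl σ))) + ind (σ = τ) = v (.inr (.inr (.inl (.inr (.inl σ)))))) fun σ => ?_
      exact rg_congr (fun v => eq_comm) (rg_eqc (ι := TI Q L T C) hRH
        (.inr (.inr (.inl (.inr (.inl σ))))) (.inl (.inr (.inl σ))) (ind (σ = τ)))
    · refine hRH.1 _ (Ix Q L T C) (fun σ (v : TI Q L T C → ℕ) =>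
        v (.inl (.inl σ)) = fs (fun p => up K τ p = σ) (fun p => v (.inr (.inl p)))) fun σ => ?_
      refine rg_congr (fun v => ?_) (rg_sum (ι := TI Q L T C) hRH (κ := Ix Q L T C × T)
        (.inl (.inl σ)) (fun p => .inr (.inl p)) ?_ (fun p => up K τ p = σ) 0)
      · rw [add_zero]
      · intro p p' h
        simpa using h
    · have key : ∀ ρ : Ix Q L T C, Rg (fun v : TI Q L T C → ℕ =>
          nw S K τ (fun p => v (.inr (.inl p))) = ρ ∧
          ∀ σ, v (.inl (.inr (.inr σ))) = v (.inr (.inr (.inl (.inr (.inr σ))))) +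
            ind (σ = ρ)) := by
        intro ρ
        refine rg_and hRG ?_ ?_
        · have h1 : ∀ p : L × T, Rg (fun v : TI Q L T C → ℕ =>
              ∃ u : C, K.cp (fs (fun σ : Ix Q L T C => σ.2.1 = p.1)
                (fun σ => v (.inr (.inl (σ, S.sw p.2))))) = u ∧
                K.ad (τ.2.2 p) u = ρ.2.2 p) := by
            intro p
            refine hRH.2.1 _ C (fun u (v : TI Q L T C → ℕ) =>
              K.cp (fs (fun σ : Ix Q L T C => σ.2.1 = p.1)
                (fun σ => v (.inr (.inl (σ, S.sw p.2))))) = u ∧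
                K.ad (τ.2.2 p) u = ρ.2.2 p) fun u => ?_
            refine rg_and hRG ?_ (hRG.1 _ _)
            refine rg_cp K hRH (ι := TI Q L T C)
              (fun σ : Ix Q L T C => .inr (.inl (σ, S.sw p.2))) ?_ _ _
            intro σ σ' h
            simpa using h
          refine rg_congr (fun v => ?_) (rg_and hRG (hRG.1 _ (τ.1 = ρ.1 ∧ τ.2.1 = ρ.2.1))
            (hRH.1 _ (L × T) _ h1))
          unfold nw
          rw [Prod.ext_iff, Prod.ext_iff, funext_iff]
          simp only [exists_eq_left', and_assoc]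
        · exact hRH.1 _ (Ix Q L T C) (fun σ (v : TI Q L T C → ℕ) =>
            v (.inl (.inr (.inr σ))) = v (.inr (.inr (.inl (.inr (.inr σ))))) + ind (σ = ρ))
            fun σ => rg_eqc hRH _ _ _
      refine rg_congr (fun v => ?_) (hRH.2.1 _ (Ix Q L T C) _ key)
      simp only [exists_eq_left']
  · -- split
    refine rg_and hRG ?_ ?_
    · exact hRH.1 _ (Ix Q L T C)
        (fun σ (v : TI Q L T C → ℕ) => v (.inl (.inr (.inr σ))) = 0) fun σ => hRH.2.2.2.2 _ _
    · exact hRH.1 _ (VI Q L T C)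
        (fun i (v : TI Q L T C → ℕ) => v (.inr (.inr (.inl i))) = v (.inl i))
        fun i => rg_eq hRH _ _
  · exact hRH.1 _ (Ix Q L T C) (fun σ (v : TI Q L T C → ℕ) =>
      v (.inr (.inr (.inl (.inl σ)))) = v (.inl (.inl σ))) fun σ => rg_eq hRH _ _
  · exact hRH.1 _ (Ix Q L T C) (fun σ (v : TI Q L T C → ℕ) =>
      v (.inr (.inr (.inl (.inl σ)))) = v (.inl (.inr (.inl σ)))) fun σ => rg_eq hRH _ _
  · refine hRH.2.1 _ Q (fun q (v : TI Q L T C → ℕ) => ∃ l, S.pt s q l ∧
      ∀ σ, v (.inl (.inl σ)) = ind (σ = (q, (l, fun _ => K.cp 0)))) fun q => ?_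
    refine hRH.2.1 _ L (fun l (v : TI Q L T C → ℕ) => S.pt s q l ∧
      ∀ σ, v (.inl (.inl σ)) = ind (σ = (q, (l, fun _ => K.cp 0)))) fun l => ?_
    refine rg_and hRG (hRG.1 _ _) ?_
    exact hRH.1 _ (Ix Q L T C) (fun σ (v : TI Q L T C → ℕ) => v (.inl (.inl σ)) =
      ind (σ = (q, (l, fun _ => K.cp 0)))) fun σ => rg_const hRH _ _

end Pool.Agent.H48.CHD
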