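import Pool.Agent.H46.CH.DU

/-!
# Row TUA: generated structures have small trees
-/

set_option autoImplicit false

namespace Pool.Agent.H48.CHD

open Classical Pool.Agent.H8.VR Pool.Agent.H69.VR Pool.Agent.H46.CH
open Pool.Agent.H8.JS (NTM Cfg Mv lang num)

theorem pf_TUA (hRS : T_RS) (hTT : T_TT) : Pool.Agent.H46.CH.T_TUA := by
  intro N Q L T O C _ _ _ _ S K Ok s₀ M n hnM
  obtain ⟨hS1, hS2⟩ := hRS N Q L T O C S K M n hnM
  obtain ⟨-, hFn, hSt, hz, hle⟩ := hTT N Q L T O C S K
  have hM0 : 0 < M := by omega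
  have hLt : ∀ c : Ix Q L T C → ℕ, tot c ≤ n → Lt M c := fun c hc σ =>
    lt_of_le_of_lt ((hle c σ).trans hc) hnM
  -- the two trees of the arguments
  have hFv : ∀ (c : Ix Q L T C → ℕ), tot c ≤ n → ∀ i : VI Q L T C,
      (Sum.elim c (fun _ => 0) : VI Q L T C → ℕ) i < M := by
    intro c hc i
    rcases i with σ | i
    · exact hLt c hc σ
    · exact hM0
  have hJ : ∀ t : ℕ, (∀ (s : N) (c : Ix Q L T C → ℕ), RF S K s c → tot c ≤ n → tot c ≤ t →
      ∃ k ≤ 10 * (tot c) ^ 2, ∀ v : VI Q L T C → ℕ, (∀ σ, v (.inl σ) = c σ) →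
        DTr S K Ok s₀ M n (.F s) v k) →
      ∀ (δ : ℕ) (o : O) (a b d : Ix Q L T C → ℕ), RJ S K o a b d →
        tot a + tot b + tot d ≤ n → tot a + tot b + tot d ≤ t + 1 → tot d = δ →
        0 < tot a ∧ 0 < tot b + tot d ∧
        ∃ k ≤ 10 * (tot a) ^ 2 + 10 * (tot b + tot d) ^ 2 + 4 + tot d,
          ∀ v : VI Q L T C → ℕ, (∀ σ, v (.inl σ) = a σ) → (∀ σ, v (.inr (.inl σ)) = b σ) →
            (∀ σ, v (.inr (.inr σ)) = d σ) → DTr S K Ok s₀ M n (.J o) v k := by
    intro t hF δ
    induction δ with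
    | zero =>
      intro o a b d hR hn ht hd
      have hd0 := (hz d).2 hd
      rcases hS2 o a b d (hLt _ (by omega)) (hLt _ (by omega)) (hLt _ (by omega)) ⟨hR, hn⟩ with
        ⟨-, ⟨ha, han⟩, ⟨hb, hbn⟩, hpa, hpb, -, -⟩ | ⟨τ, m, a₀, b₀, d₀, -, -, -, -, -, hstep⟩
      · refine ⟨hpa, by omega, ?_⟩
        obtain ⟨k1, hk1, h1⟩ := hF _ a ha han (by omega)
        obtain ⟨k2, hk2, h2⟩ := hF _ b hb hbn (by omega)
        refine ⟨((k1 + 1) + (k2 + 1) + 1) + 1, ?_, ?_⟩
        · rw [hd, add_zero, add_zero]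
          omega
        · intro v hva hvb hvd
          have hvM : ∀ i, v i < M := by
            rintro (σ | σ | σ)
            · rw [hva]; exact hLt _ (by omega) σ
            · rw [hvb]; exact hLt _ (by omega) σ
            · rw [hvd]; exact hLt _ (by omega) σ
          refine AuT.st (src := TEd.src S) (tgt := TEd.tgt (C := C) S s₀) (br := TSt.br)
            (P := TEd.P S K Ok) (TEd.split o) v (fun _ => 0) v _ rfl (fun _ => hM0) hvM ?_ ?_
          · exact ⟨fun σ => (hvd σ).trans (hd0 σ), fun i => rfl⟩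
          · refine AuT.all (TSt.B o) (TSt.Lf o) (TSt.Rt o) v _ _ rfl ?_ ?_
            · refine AuT.st (src := TEd.src S) (tgt := TEd.tgt (C := C) S s₀) (br := TSt.br)
                (P := TEd.P S K Ok) (TEd.left o) v (fun _ => 0) (Sum.elim a fun _ => 0) _ rfl
                (fun _ => hM0) (hFv a han) ?_ (h1 _ fun σ => rfl)
              exact fun σ => (hva σ).symm
            · refine AuT.st (src := TEd.src S) (tgt := TEd.tgt (C := C) S s₀) (br := TSt.br)
                (P := TEd.P S K Ok) (TEd.right o) v (fun _ => 0) (Sum.elim b fun _ => 0) _ rfl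
                (fun _ => hM0) (hFv b hbn) ?_ (h2 _ fun σ => rfl)
              exact fun σ => (hvb σ).symm
      · exfalso
        have h := (hSt o τ m a₀ b₀ d₀ a b d hstep).2.2.1
        omega
    | succ δ ih =>
      intro o a b d hR hn ht hd
      rcases hS2 o a b d (hLt _ (by omega)) (hLt _ (by omega)) (hLt _ (by omega)) ⟨hR, hn⟩ with
        ⟨hd0, -⟩ | ⟨τ, m, a₀, b₀, d₀, hm, hla, hlb, hld, ⟨hR0, hn0⟩, hstep⟩
      · exfalso
        have h := (hz d).1 hd0
        omega
      · obtain ⟨e1, e2, e3, -⟩ := hSt o τ m a₀ b₀ d₀ a b d hstep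
        obtain ⟨p1, p2, k, hk, hT⟩ := ih o a₀ b₀ d₀ hR0 hn0 (by omega) (by omega)
        refine ⟨by omega, by omega, k + 1, ?_, ?_⟩
        · have e4 : tot b₀ + tot d₀ = tot b + tot d := by omega
          rw [e4, ← e1] at hk
          omega
        · intro v hva hvb hvd
          refine AuT.st (src := TEd.src S) (tgt := TEd.tgt (C := C) S s₀) (br := TSt.br)
            (P := TEd.P S K Ok) (TEd.step o τ) v m (Sum.elim a₀ (Sum.elim b₀ d₀)) _ rfl hm ?_ ?_
            (hT _ (fun _ => rfl) (fun _ => rfl) fun _ => rfl)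
          · rintro (σ | σ | σ)
            · exact hla σ
            · exact hlb σ
            · exact hld σ
          · show Step S K o τ m a₀ b₀ d₀ (fun σ => v (.inl σ)) (fun σ => v (.inr (.inl σ)))
              (fun σ => v (.inr (.inr σ)))
            have f1 : (fun σ => v (.inl σ)) = a := funext hva
            have f2 : (fun σ => v (.inr (.inl σ))) = b := funext hvb
            have f3 : (fun σ => v (.inr (.inr σ))) = d := funext hvd
            rw [f1, f2, f3]
            exact hstep
  have main : ∀ (t : ℕ) (s : N) (c : Ix Q L T C → ℕ), RF S K s c → tot c ≤ n → tot c ≤ t →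
      ∃ k ≤ 10 * (tot c) ^ 2, ∀ v : VI Q L T C → ℕ, (∀ σ, v (.inl σ) = c σ) →
        DTr S K Ok s₀ M n (.F s) v k := by
    intro t
    induction t with
    | zero =>
      intro s c hc hn ht
      have hc0 := (hz c).2 (by omega)
      exfalso
      rcases hS1 s c (hLt _ hn) ⟨hc, hn⟩ with ⟨q, l, -, hq⟩ | ⟨o, -, a, b, d, -, -, -, hb, ⟨hR, hRn⟩,
        hfn⟩
      · have h1 := hq (q, (l, fun _ => K.cp 0))
        rw [hc0] at h1
        simp [ind] at h1
      · have e := hFn o a d c hfn
        have hb0 := (hz b).1 hb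
        have ha0 : tot a = 0 := by omega
        have h0 : ∀ (δ : ℕ) (o : O) (a b d : Ix Q L T C → ℕ), RJ S K o a b d →
            tot a + tot b + tot d ≤ n → tot d = δ → tot a ≠ 0 := by
          intro δ
          induction δ with
          | zero =>
            intro o a b d hR hn hd
            rcases hS2 o a b d (hLt _ (by omega)) (hLt _ (by omega)) (hLt _ (by omega))
              ⟨hR, hn⟩ with ⟨-, -, -, hpa, -⟩ | ⟨τ, m, a₀, b₀, d₀, -, -, -, -, -, hstep⟩
            · omega
            · have h := (hSt o τ m a₀ b₀ d₀ a b d hstep).2.2.1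
              omega
          | succ δ ih =>
            intro o a b d hR hn hd
            rcases hS2 o a b d (hLt _ (by omega)) (hLt _ (by omega)) (hLt _ (by omega))
              ⟨hR, hn⟩ with ⟨-, -, -, hpa, -⟩ | ⟨τ, m, a₀, b₀, d₀, -, -, -, -, ⟨hR0, hn0⟩, hstep⟩
            · omega
            · obtain ⟨e1, e2, e3, -⟩ := hSt o τ m a₀ b₀ d₀ a b d hstep
              have := ih o a₀ b₀ d₀ hR0 hn0 (by omega)
              omega
        exact h0 _ o a b d hR hRn rfl ha0
    | succ t ih =>
      intro s c hc hn ht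
      rcases hS1 s c (hLt _ hn) ⟨hc, hn⟩ with hpt | ⟨o, ho, a, b, d, hla, hlb, hld, hb, ⟨hR, hRn⟩,
        hfn⟩
      · have hpos : 0 < tot c := by
          rcases Nat.eq_zero_or_pos (tot c) with h0 | h0
          · exfalso
            have hc0 := (hz c).2 h0
            obtain ⟨q, l, -, hq⟩ := hpt
            have h1 := hq (q, (l, fun _ => K.cp 0))
            rw [hc0] at h1
            simp [ind] at h1
          · exact h0
        refine ⟨1 + 1, ?_, ?_⟩
        · have h1 : 1 ≤ (tot c) ^ 2 := Nat.one_le_pow _ _ hpos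
          omega
        · intro v hv
          refine AuT.st (src := TEd.src S) (tgt := TEd.tgt (C := C) S s₀) (br := TSt.br)
            (P := TEd.P S K Ok) (TEd.leaf s) v (fun _ => 0) (fun _ => 0) _ rfl (fun _ => hM0)
            (fun _ => hM0) ?_ (AuT.fin _)
          show Ptc S K s (fun σ => v (.inl σ))
          have f1 : (fun σ => v (.inl σ)) = c := funext hv
          rw [f1]
          exact hpt
      · subst ho
        have e := hFn o a d c hfn
        have hb0 := (hz b).1 hb
        obtain ⟨p1, p2, k, hk, hT⟩ := hJ t ih _ o a b d hR hRn (by omega) rfl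
        refine ⟨k + 1, ?_, ?_⟩
        · rw [hb0, zero_add] at hk p2
          rw [e]
          have h1 : (tot a + tot d) ^ 2 = (tot a) ^ 2 + (tot d) ^ 2 + 2 * (tot a * tot d) := by ring
          have h2 : tot d ≤ tot a * tot d := Nat.le_mul_of_pos_left _ p1
          omega
        · intro v hv
          refine AuT.st (src := TEd.src S) (tgt := TEd.tgt (C := C) S s₀) (br := TSt.br)
            (P := TEd.P S K Ok) (TEd.join o) v (fun _ => 0) (Sum.elim a (Sum.elim b d)) _ rfl
            (fun _ => hM0) ?_ ?_ (hT _ (fun _ => rfl) (fun _ => rfl) fun _ => rfl)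
          · rintro (σ | σ | σ)
            · exact hla σ
            · exact hlb σ
            · exact hld σ
          · refine ⟨?_, hb⟩
            show Fn S o a d (fun σ => v (.inl σ))
            have f1 : (fun σ => v (.inl σ)) = c := funext hv
            rw [f1]
            exact hfn
  intro s c hc hn
  exact main (tot c) s c hc hn le_rfl

end Pool.Agent.H48.CHD
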